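import Pool.Agent.W622.BK.Stm

set_option autoImplicit false

/-! # Part REP of project BK: a representation of the free Lie algebra

For a functional `lam` on the trilinear forms vanishing on the decomposable ones, the free Lie
algebra acts on `k × V × X* × k`. -/

namespace Pool.Agent.W358.BK

open Module Pool.Agent.W622.BK

universe u

section
variable {k : Type u} [Field k] {E : Type u} [AddCommGroup E] [Module k E]

theorem exists_lam {k : Type u} [Field k] {M : Type u} [AddCommMonoid M] [Module k M]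
    (S : Submodule k M) (x : M) (hx : x ∉ S) : ∃ f : M →ₗ[k] k, f x ≠ 0 ∧ ∀ y ∈ S, f y = 0 := by
  letI : AddCommGroup M := Module.addCommMonoidToAddCommGroup k
  obtain ⟨f, h1, h2⟩ := Submodule.exists_le_ker_of_notMem hx
  exact ⟨f, h1, fun y hy => h2 hy⟩

/-- the tensor product of two functionals -/
noncomputable abbrev B2 : (E →ₗ[k] k) →ₗ[k] (E →ₗ[k] k) →ₗ[k] (E →ₗ[k] E →ₗ[k] k) :=
  LinearMap.smulRightₗ

/-- the tensor product of a functional and a bilinear form -/
noncomputable abbrev B3 : (E →ₗ[k] k) →ₗ[k] (E →ₗ[k] E →ₗ[k] k) →ₗ[k]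
    (E →ₗ[k] E →ₗ[k] E →ₗ[k] k) :=
  LinearMap.smulRightₗ

theorem B2_apply (x y : E →ₗ[k] k) (a e : E) : B2 x y a e = x a * y e := by
  simp [B2, LinearMap.smulRightₗ_apply_apply]

theorem B3_apply (x : E →ₗ[k] k) (β : E →ₗ[k] E →ₗ[k] k) (a e e' : E) :
    B3 x β a e e' = x a * β e e' := by
  simp [B3, LinearMap.smulRightₗ_apply_apply]

/-- the decomposable trilinear forms -/
def DecS (R : Submodule k (E →ₗ[k] E →ₗ[k] k)) (X : Submodule k (E →ₗ[k] k)) :
    Submodule k (E →ₗ[k] E →ₗ[k] E →ₗ[k] k) where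
  carrier := {t | Dec R X (fun a e e' => t a e e')}
  add_mem' := by
    rintro t t' ⟨s, p, h1, h2, h3, h4⟩ ⟨s', p', h1', h2', h3', h4'⟩
    refine ⟨s + s', p + p', ?_, ?_, ?_, ?_⟩
    · intro a e e'
      have e1 := h1 a e e'
      have e2 := h1' a e e'
      simp only [LinearMap.add_apply] at e1 e2 ⊢
      rw [e1, e2]; ring
    · intro e'
      have h : (s + s').compr₂ (LinearMap.applyₗ e') =
          s.compr₂ (LinearMap.applyₗ e') + s'.compr₂ (LinearMap.applyₗ e') := by
        ext a e; simp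
      rw [h]
      exact Submodule.add_mem _ (h2 e') (h2' e')
    · intro a
      rw [LinearMap.add_apply]
      exact Submodule.add_mem _ (h3 a) (h3' a)
    · intro e e'
      have h : ((p + p').flip e).flip e' = (p.flip e).flip e' + (p'.flip e).flip e' := by
        ext a; simp
      rw [h]
      exact Submodule.add_mem _ (h4 e e') (h4' e e')
  zero_mem' := by
    refine ⟨0, 0, ?_, ?_, ?_, ?_⟩
    · intro a e e'; simp
    · intro e'
      have h : (0 : E →ₗ[k] E →ₗ[k] E →ₗ[k] k).compr₂ (LinearMap.applyₗ e') = 0 := by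
        ext a e; simp
      rw [h]; exact Submodule.zero_mem _
    · intro a
      rw [LinearMap.zero_apply]; exact Submodule.zero_mem _
    · intro e e'
      have h : ((0 : E →ₗ[k] E →ₗ[k] E →ₗ[k] k).flip e).flip e' = 0 := by
        ext a; simp
      rw [h]; exact Submodule.zero_mem _
  smul_mem' := by
    rintro c t ⟨s, p, h1, h2, h3, h4⟩
    refine ⟨c • s, c • p, ?_, ?_, ?_, ?_⟩
    · intro a e e'
      have e1 := h1 a e e'
      simp only [LinearMap.smul_apply, smul_eq_mul] at e1 ⊢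
      rw [e1]; ring
    · intro e'
      have h : (c • s).compr₂ (LinearMap.applyₗ e') = c • s.compr₂ (LinearMap.applyₗ e') := by
        ext a e; simp
      rw [h]
      exact Submodule.smul_mem _ c (h2 e')
    · intro a
      rw [LinearMap.smul_apply]
      exact Submodule.smul_mem _ c (h3 a)
    · intro e e'
      have h : ((c • p).flip e).flip e' = c • (p.flip e).flip e' := by
        ext a; simp
      rw [h]
      exact Submodule.smul_mem _ c (h4 e e')

theorem dec_p (R : Submodule k (E →ₗ[k] E →ₗ[k] k)) (X : Submodule k (E →ₗ[k] k))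
    (x : E →ₗ[k] k) (hx : x ∈ X) (β : E →ₗ[k] E →ₗ[k] k) (hβ : β ∈ R) : B3 x β ∈ DecS R X := by
  refine ⟨0, B3 x β, ?_, ?_, ?_, ?_⟩
  · intro a e e'; simp
  · intro e'
    have h : (0 : E →ₗ[k] E →ₗ[k] E →ₗ[k] k).compr₂ (LinearMap.applyₗ e') = 0 := by
      ext a e; simp
    rw [h]; exact Submodule.zero_mem _
  · intro a
    exact R.smul_mem (x a) hβ
  · intro e e'
    have h : ((B3 x β).flip e).flip e' = (β e e') • x := by
      ext a
      simp only [LinearMap.flip_apply, LinearMap.smul_apply, smul_eq_mul]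
      rw [B3_apply]; ring
    rw [h]
    exact X.smul_mem _ hx

/-- `β ⊗ y` -/
noncomputable def BR (β : E →ₗ[k] E →ₗ[k] k) (y : E →ₗ[k] k) : E →ₗ[k] E →ₗ[k] E →ₗ[k] k :=
  β.compr₂ (LinearMap.toSpanSingleton k (E →ₗ[k] k) y)

theorem BR_apply (β : E →ₗ[k] E →ₗ[k] k) (y : E →ₗ[k] k) (a e e' : E) :
    BR β y a e e' = β a e * y e' := by
  simp [BR]

theorem dec_s (R : Submodule k (E →ₗ[k] E →ₗ[k] k)) (X : Submodule k (E →ₗ[k] k))
    (β : E →ₗ[k] E →ₗ[k] k) (hβ : β ∈ Rx R X) (y : E →ₗ[k] k) : BR β y ∈ DecS R X := by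
  refine ⟨BR β y, 0, ?_, ?_, ?_, ?_⟩
  · intro a e e'; simp
  · intro e'
    have h : (BR β y).compr₂ (LinearMap.applyₗ e') = y e' • β := by
      ext a e
      simp only [LinearMap.compr₂_apply, LinearMap.smul_apply, smul_eq_mul]
      show BR β y a e e' = _
      rw [BR_apply]; ring
    rw [h]; exact Submodule.smul_mem _ _ hβ
  · intro a
    rw [LinearMap.zero_apply]; exact Submodule.zero_mem _
  · intro e e'
    have h : ((0 : E →ₗ[k] E →ₗ[k] E →ₗ[k] k).flip e).flip e' = 0 := by
      ext a; simp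
    rw [h]; exact Submodule.zero_mem _

variable (X : Submodule k (E →ₗ[k] k)) (lam : (E →ₗ[k] E →ₗ[k] E →ₗ[k] k) →ₗ[k] k)

/-- `x' ↦ lam (x' ⊗ x ⊗ y)` -/
noncomputable def Am (x : E →ₗ[k] k) : (E →ₗ[k] k) →ₗ[k] (X →ₗ[k] k) where
  toFun y := (lam ∘ₗ (B3.flip (B2 x y))) ∘ₗ X.subtype
  map_add' y y' := by
    ext x'
    simp only [LinearMap.comp_apply, LinearMap.flip_apply, map_add, LinearMap.add_apply]
  map_smul' c y := by
    ext x'
    simp only [LinearMap.comp_apply, LinearMap.flip_apply, map_smul, LinearMap.smul_apply,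
      RingHom.id_apply]

theorem Am_apply (x y : E →ₗ[k] k) (x' : X) : Am X lam x y x' = lam (B3 x' (B2 x y)) := rfl

/-- the operator of `x` -/
noncomputable def opl (x : X) :
    Module.End k (k × (E →ₗ[k] k) × (X →ₗ[k] k) × k) where
  toFun w := (0, w.1 • (x : E →ₗ[k] k), Am X lam x w.2.1, w.2.2.1 x)
  map_add' w w' := by
    refine Prod.ext ?_ (Prod.ext ?_ (Prod.ext ?_ ?_))
    · simp
    · simp [add_smul]
    · simp
    · simp
  map_smul' c w := by
    refine Prod.ext ?_ (Prod.ext ?_ (Prod.ext ?_ ?_))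
    · simp
    · simp [mul_smul]
    · simp
    · simp

theorem opl_apply (x : X) (w : k × (E →ₗ[k] k) × (X →ₗ[k] k) × k) :
    opl X lam x w = (0, w.1 • (x : E →ₗ[k] k), Am X lam x w.2.1, w.2.2.1 x) := rfl

theorem opl_two (x y : X) (w : k × (E →ₗ[k] k) × (X →ₗ[k] k) × k) :
    opl X lam x (opl X lam y w) =
      (0, 0, w.1 • Am X lam x y, lam (B3 x (B2 y w.2.1))) := by
  rw [opl_apply, opl_apply]
  refine Prod.ext rfl (Prod.ext ?_ (Prod.ext ?_ rfl))
  · exact zero_smul _ _
  · exact map_smul _ _ _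

theorem opl_three (x y z : X) (c : k) :
    opl X lam x (opl X lam y (opl X lam z (c, 0, 0, 0))) =
      (0, 0, 0, c * lam (B3 x (B2 y z))) := by
  rw [opl_two, opl_apply]
  refine Prod.ext rfl (Prod.ext rfl (Prod.ext ?_ ?_))
  · exact zero_smul _ _
  · simp

theorem lie_two (x y : X) (w : k × (E →ₗ[k] k) × (X →ₗ[k] k) × k) :
    ⁅opl X lam x, opl X lam y⁆ w =
      (0, 0, w.1 • (Am X lam x y - Am X lam y x),
        lam (B3 x (B2 y w.2.1)) - lam (B3 y (B2 x w.2.1))) := by
  rw [Ring.lie_def, LinearMap.sub_apply, Module.End.mul_apply, Module.End.mul_apply, opl_two,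
    opl_two]
  refine Prod.ext ?_ (Prod.ext ?_ (Prod.ext ?_ rfl))
  · simp
  · simp
  · simp [smul_sub]

theorem lie_three (x y z : X) (c : k) :
    ⁅⁅opl X lam x, opl X lam y⁆, opl X lam z⁆ (c, 0, 0, 0) =
      (0, 0, 0, c * (lam (B3 x (B2 y z)) - lam (B3 y (B2 x z)) -
        lam (B3 z (B2 x y)) + lam (B3 z (B2 y x)))) := by
  rw [Ring.lie_def, Ring.lie_def, LinearMap.sub_apply, Module.End.mul_apply, Module.End.mul_apply,
    LinearMap.sub_apply, LinearMap.sub_apply, Module.End.mul_apply, Module.End.mul_apply,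
    Module.End.mul_apply, Module.End.mul_apply, map_sub, opl_three, opl_three, opl_three,
    opl_three]
  refine Prod.ext ?_ (Prod.ext ?_ (Prod.ext ?_ ?_))
  · simp
  · simp
  · simp
  · simp only [Prod.snd_sub]
    ring

end

section
variable {k : Type u} [Field k] {L : Type u} [LieRing L] [LieAlgebra k L]
variable {E : Type u} [AddCommGroup E] [Module k E] [FiniteDimensional k E]

/-- `Br` as a linear map -/
noncomputable def BrL (j : (E →ₗ[k] k) →ₗ[k] L) : (E →ₗ[k] E →ₗ[k] k) →ₗ[k] L where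
  toFun := Br j
  map_add' a b := by
    unfold Br
    rw [← Finset.sum_add_distrib]
    refine Finset.sum_congr rfl fun i _ => ?_
    rw [LinearMap.add_apply, map_add, lie_add]
  map_smul' c a := by
    unfold Br
    rw [Finset.smul_sum]
    refine Finset.sum_congr rfl fun i _ => ?_
    rw [LinearMap.smul_apply, map_smul, lie_smul, RingHom.id_apply]

theorem sum_coord (x : E →ₗ[k] k) :
    ∑ i, x (finBasis k E i) • (finBasis k E).coord i = x := by
  apply (finBasis k E).ext
  intro i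
  rw [LinearMap.sum_apply, Finset.sum_eq_single i]
  · simp
  · intro b _ hb
    simp [Finsupp.single_apply, Ne.symm hb]
  · simp

theorem Br_B2 (j : (E →ₗ[k] k) →ₗ[k] L) (x y : E →ₗ[k] k) : Br j (B2 x y) = ⁅j x, j y⁆ := by
  unfold Br
  have h : ∀ i, ⁅j ((finBasis k E).coord i), j (B2 x y (finBasis k E i))⁆ =
      ⁅x (finBasis k E i) • j ((finBasis k E).coord i), j y⁆ := by
    intro i
    have h1 : B2 x y (finBasis k E i) = x (finBasis k E i) • y := rfl
    rw [h1, map_smul, lie_smul, smul_lie]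
  rw [Finset.sum_congr rfl fun i _ => h i, ← sum_lie]
  congr 1
  conv_rhs => rw [← sum_coord x, map_sum]
  exact Finset.sum_congr rfl fun i _ => (map_smul _ _ _).symm

/-- `Br3` as a linear map -/
noncomputable def Br3L (j : (E →ₗ[k] k) →ₗ[k] L) : (E →ₗ[k] E →ₗ[k] E →ₗ[k] k) →ₗ[k] L where
  toFun := Br3 j
  map_add' a b := by
    unfold Br3
    rw [← Finset.sum_add_distrib]
    refine Finset.sum_congr rfl fun i _ => ?_
    have h : (a + b).compr₂ (LinearMap.applyₗ (finBasis k E i)) =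
        a.compr₂ (LinearMap.applyₗ (finBasis k E i)) +
          b.compr₂ (LinearMap.applyₗ (finBasis k E i)) := by
      ext; simp
    rw [h]
    have h2 := (BrL j).map_add (a.compr₂ (LinearMap.applyₗ (finBasis k E i)))
      (b.compr₂ (LinearMap.applyₗ (finBasis k E i)))
    change Br j _ = Br j _ + Br j _ at h2
    rw [h2, add_lie]
  map_smul' c a := by
    unfold Br3
    rw [Finset.smul_sum]
    refine Finset.sum_congr rfl fun i _ => ?_
    have h : (c • a).compr₂ (LinearMap.applyₗ (finBasis k E i)) =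
        c • a.compr₂ (LinearMap.applyₗ (finBasis k E i)) := by
      ext; simp
    rw [h]
    have h2 := (BrL j).map_smul c (a.compr₂ (LinearMap.applyₗ (finBasis k E i)))
    change Br j _ = c • Br j _ at h2
    rw [h2, smul_lie, RingHom.id_apply]

theorem Br3_B3 (j : (E →ₗ[k] k) →ₗ[k] L) (x y z : E →ₗ[k] k) :
    Br3 j (B3 x (B2 y z)) = ⁅⁅j x, j y⁆, j z⁆ := by
  unfold Br3
  have h : ∀ i, ⁅Br j ((B3 x (B2 y z)).compr₂ (LinearMap.applyₗ (finBasis k E i))),
      j ((finBasis k E).coord i)⁆ =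
      ⁅⁅j x, j y⁆, z (finBasis k E i) • j ((finBasis k E).coord i)⁆ := by
    intro i
    have h1 : (B3 x (B2 y z)).compr₂ (LinearMap.applyₗ (finBasis k E i)) =
        z (finBasis k E i) • B2 x y := by
      ext a e
      simp only [LinearMap.compr₂_apply, LinearMap.smul_apply, smul_eq_mul]
      show B3 x (B2 y z) a e (finBasis k E i) = _
      rw [B3_apply, B2_apply, B2_apply]; ring
    have h2 := (BrL j).map_smul (z (finBasis k E i)) (B2 x y)
    change Br j _ = _ • Br j _ at h2
    rw [h1, h2, Br_B2, smul_lie, lie_smul]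
  rw [Finset.sum_congr rfl fun i _ => h i, ← lie_sum]
  congr 1
  conv_rhs => rw [← sum_coord z, map_sum]
  exact Finset.sum_congr rfl fun i _ => (map_smul _ _ _).symm

/-- dual vectors -/
theorem exists_dual {X : Submodule k (E →ₗ[k] k)} {m : ℕ} (bX : Basis (Fin m) k X) :
    ∃ ev : Fin m → E, ∀ f ∈ X, f = ∑ s, f (ev s) • (bX s : E →ₗ[k] k) := by
  have h : ∀ s, ∃ e : E, ∀ f : X, bX.coord s f = (f : E →ₗ[k] k) e := by
    intro s
    obtain ⟨φ, hφ⟩ := LinearMap.exists_extend (bX.coord s)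
    refine ⟨(evalEquiv k E).symm φ, fun f => ?_⟩
    rw [← hφ]
    have h2 : φ = evalEquiv k E ((evalEquiv k E).symm φ) := by simp
    conv_lhs => rw [h2]
    rfl
  choose ev hev using h
  refine ⟨ev, fun f hf => ?_⟩
  have h1 := bX.sum_repr ⟨f, hf⟩
  have h2 := congrArg (fun z : X => (z : E →ₗ[k] k)) h1
  simp only at h2
  rw [Submodule.coe_sum] at h2
  conv_lhs => rw [← h2]
  refine Finset.sum_congr rfl fun s _ => ?_
  rw [Submodule.coe_smul]
  congr 1
  exact hev s ⟨f, hf⟩

noncomputable local instance wring {k : Type u} [Field k] {E : Type u} [AddCommGroup E]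
    [Module k E] (X : Submodule k (E →ₗ[k] k)) :
    LieRing (Module.End k (k × (E →ₗ[k] k) × (X →ₗ[k] k) × k)) := LieRing.ofAssociativeRing

noncomputable local instance walg {k : Type u} [Field k] {E : Type u} [AddCommGroup E]
    [Module k E] (X : Submodule k (E →ₗ[k] k)) :
    LieAlgebra k (Module.End k (k × (E →ₗ[k] k) × (X →ₗ[k] k) × k)) :=
  LieAlgebra.ofAssociativeAlgebra

theorem t_REP : Pool.Agent.W622.BK.S_REP.{u} := by
  intro k _ L _ _ E _ _ _ j X h2 hj hQ κ hκ0 hκ1 hκ2 hκ3 hBr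
  classical
  -- the second form
  obtain ⟨m, b, hb⟩ := hQ
  let eX : X ≃ₗ[k] X.map j := Submodule.equivMapOfInjective j hj X
  let bX : Basis (Fin m) k X := b.map eX.symm
  have hbX : ∀ s, j (bX s : E →ₗ[k] k) = (b s : L) := by
    intro s
    have h1 : eX (bX s) = b s := by simp [bX]
    rw [← h1]
    rfl
  obtain ⟨ev, hev⟩ := exists_dual bX
  set c : Fin m → Fin m → Fin m → k := fun s t v => κ (ev s) (ev t) (ev v) with hc
  have hanti : ∀ s t v, c t s v = - c s t v := by
    intro s t v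
    have h := hκ0 (ev s + ev t) (ev v)
    simp only [map_add, LinearMap.add_apply] at h
    rw [hκ0, hκ0, zero_add, add_zero] at h
    simp only [hc]
    linear_combination h
  have hexp : κ = ∑ s, ∑ t, ∑ v, c s t v • B3 (bX s) (B2 (bX t) (bX v)) := by
    ext a e e'
    have e1 : κ a e e' = ∑ s, κ (ev s) e e' * (bX s : E →ₗ[k] k) a := by
      have h := congrArg (fun f : E →ₗ[k] k => f a) (hev _ (hκ3 e e'))
      simpa [LinearMap.sum_apply] using h
    have e2 : ∀ s, κ (ev s) e e' = ∑ t, κ (ev s) (ev t) e' * (bX t : E →ₗ[k] k) e := by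
      intro s
      have h := congrArg (fun f : E →ₗ[k] k => f e) (hev _ (hκ2 (ev s) e'))
      simpa [LinearMap.sum_apply] using h
    have e3 : ∀ s t, κ (ev s) (ev t) e' = ∑ v, c s t v * (bX v : E →ₗ[k] k) e' := by
      intro s t
      have h := congrArg (fun f : E →ₗ[k] k => f e') (hev _ (hκ1 (ev s) (ev t)))
      simpa [LinearMap.sum_apply] using h
    rw [e1]
    simp only [LinearMap.sum_apply, LinearMap.smul_apply, smul_eq_mul]
    refine Finset.sum_congr rfl fun s _ => ?_
    rw [e2 s, Finset.sum_mul]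
    refine Finset.sum_congr rfl fun t _ => ?_
    rw [e3 s t, Finset.sum_mul, Finset.sum_mul]
    refine Finset.sum_congr rfl fun v _ => ?_
    rw [B3_apply, B2_apply]
    ring
  set κ' : E →ₗ[k] E →ₗ[k] E →ₗ[k] k :=
    ∑ s, ∑ t, ∑ v, c s t v • B3 (bX v) (B2 (bX s) (bX t)) with hκ'
  have hκ'a : ∀ a e e', κ' a e e' = κ e e' a := by
    intro a e e'
    conv_rhs => rw [hexp]
    rw [hκ']
    simp only [LinearMap.sum_apply, LinearMap.smul_apply, smul_eq_mul]
    refine Finset.sum_congr rfl fun s _ => Finset.sum_congr rfl fun t _ =>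
      Finset.sum_congr rfl fun v _ => ?_
    rw [B3_apply, B2_apply, B3_apply, B2_apply]
    ring
  suffices hmem : κ + (-1 : k) • κ' ∈ DecS (Rj j) X by
    obtain ⟨s, p, q1, q2, q3, q4⟩ := hmem
    refine ⟨s, p, fun a e e' => ?_, q2, q3, q4⟩
    have h := q1 a e e'
    simp only [LinearMap.add_apply, LinearMap.smul_apply, smul_eq_mul] at h
    rw [hκ'a] at h
    rw [← h]
    ring
  by_contra hnot
  obtain ⟨lam, hl1, hl2⟩ := exists_lam _ _ hnot
  apply hl1
  -- the representation
  let ρ : FreeLieAlgebra k (Fin m) →ₗ⁅k⁆ Module.End k (k × (E →ₗ[k] k) × (X →ₗ[k] k) × k) :=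
    FreeLieAlgebra.lift k (fun s => opl X lam (bX s))
  have hρ : ∀ s, ρ (FreeLieAlgebra.of k s) = opl X lam (bX s) := fun s =>
    FreeLieAlgebra.lift_of_apply _ s
  have hfr : ∀ s, freeTo k L (fun i => (b i : L)) (FreeLieAlgebra.of k s) = (b s : L) := fun s =>
    FreeLieAlgebra.lift_of_apply _ s
  have hgen : LieSubmodule.lieSpan k (FreeLieAlgebra k (Fin m))
        {r : FreeLieAlgebra k (Fin m) | r ∈ degTwo k m ∧ freeTo k L (fun i => (b i : L)) r = 0} ≤
        ρ.ker := by
    rw [LieSubmodule.lieSpan_le]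
    rintro r ⟨hr1, hr2⟩
    show r ∈ ρ.ker
    rw [LieHom.mem_ker]
    unfold degTwo at hr1
    rw [Submodule.mem_span_range_iff_exists_fun] at hr1
    obtain ⟨d, rfl⟩ := hr1
    have h3 : ∑ p : Fin m × Fin m, d p • ⁅(b p.1 : L), (b p.2 : L)⁆ = 0 := by
      rw [map_sum] at hr2
      rw [← hr2]
      refine Finset.sum_congr rfl fun p _ => ?_
      rw [map_smul, LieHom.map_lie, hfr, hfr]
    set β : E →ₗ[k] E →ₗ[k] k :=
      ∑ p : Fin m × Fin m, d p • (B2 (bX p.1) (bX p.2) + (-1 : k) • B2 (bX p.2) (bX p.1)) with hβ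
    have hβR : β ∈ Rj j := by
      refine ⟨fun e => ?_, ?_⟩
      · rw [hβ]
        simp only [LinearMap.sum_apply, LinearMap.smul_apply, LinearMap.add_apply, smul_eq_mul]
        refine Finset.sum_eq_zero fun p _ => ?_
        rw [B2_apply, B2_apply]; ring
      · have h4 : BrL j β = 0 := by
          rw [hβ, map_sum]
          have h5 : ∀ p : Fin m × Fin m, BrL j (d p • (B2 (bX p.1 : E →ₗ[k] k) (bX p.2) +
              (-1 : k) • B2 (bX p.2 : E →ₗ[k] k) (bX p.1))) =
                (2 : k) • (d p • ⁅(b p.1 : L), (b p.2 : L)⁆) := by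
            intro p
            rw [map_smul, map_add, map_smul]
            change d p • (Br j _ + (-1 : k) • Br j _) = _
            have hsk : ⁅(b p.2 : L), (b p.1 : L)⁆ = -⁅(b p.1 : L), (b p.2 : L)⁆ :=
              (lie_skew _ _).symm
            rw [Br_B2, Br_B2, hbX, hbX, hsk, neg_one_smul, neg_neg, smul_comm (2 : k), two_smul]
          rw [Finset.sum_congr rfl fun p _ => h5 p, ← Finset.smul_sum, h3, smul_zero]
        exact h4
    have hβX : β ∈ Rx (Rj j) X := by
      refine ⟨hβR, fun e => ?_⟩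
      rw [hβ, LinearMap.sum_apply]
      refine Submodule.sum_mem _ fun p _ => ?_
      rw [LinearMap.smul_apply, LinearMap.add_apply, LinearMap.smul_apply]
      exact X.smul_mem _ (X.add_mem (X.smul_mem _ (bX p.2).2)
        (X.smul_mem _ (X.smul_mem _ (bX p.1).2)))
    have h6 : ρ (∑ p : Fin m × Fin m, d p • ⁅FreeLieAlgebra.of k p.1, FreeLieAlgebra.of k p.2⁆) =
        ∑ p : Fin m × Fin m, d p • ⁅opl X lam (bX p.1), opl X lam (bX p.2)⁆ := by
      rw [map_sum]
      refine Finset.sum_congr rfl fun p _ => ?_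
      rw [map_smul, LieHom.map_lie, hρ, hρ]
    rw [h6]
    apply LinearMap.ext
    intro w
    rw [LinearMap.sum_apply, LinearMap.zero_apply]
    have h7 : ∀ p : Fin m × Fin m, (d p • ⁅opl X lam (bX p.1), opl X lam (bX p.2)⁆) w =
        (0, 0, d p • w.1 • (Am X lam (bX p.1) (bX p.2) - Am X lam (bX p.2) (bX p.1)),
          d p * (lam (B3 (bX p.1) (B2 (bX p.2) w.2.1)) -
            lam (B3 (bX p.2) (B2 (bX p.1) w.2.1)))) := by
      intro p
      rw [LinearMap.smul_apply, lie_two]
      refine Prod.ext ?_ (Prod.ext ?_ (Prod.ext rfl rfl))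
      · simp
      · simp
    rw [Finset.sum_congr rfl fun p _ => h7 p]
    refine Prod.ext ?_ (Prod.ext ?_ (Prod.ext ?_ ?_))
    · simp [Prod.fst_sum]
    · simp [Prod.fst_sum, Prod.snd_sum]
    · rw [Prod.snd_sum, Prod.snd_sum, Prod.fst_sum]
      apply LinearMap.ext
      intro x'
      rw [LinearMap.sum_apply]
      show _ = (0 : k)
      have h8 : lam (B3 (x' : E →ₗ[k] k) β) = 0 :=
        hl2 _ (dec_p (Rj j) X x' x'.2 β hβR)
      rw [hβ, map_sum, map_sum] at h8
      have h9 : ∀ p : Fin m × Fin m,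
          (d p • w.1 • (Am X lam (bX p.1) (bX p.2) - Am X lam (bX p.2) (bX p.1))) x' =
          w.1 * lam (B3 (x' : E →ₗ[k] k) (d p • (B2 (bX p.1 : E →ₗ[k] k) (bX p.2) +
            (-1 : k) • B2 (bX p.2 : E →ₗ[k] k) (bX p.1)))) := by
        intro p
        rw [LinearMap.smul_apply, LinearMap.smul_apply, LinearMap.sub_apply, Am_apply, Am_apply,
          map_smul, map_add, map_smul, map_smul, map_add, map_smul]
        simp only [smul_eq_mul]
        ring
      simp only
      rw [Finset.sum_congr rfl fun p _ => h9 p, ← Finset.mul_sum, h8, mul_zero]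
    · rw [Prod.snd_sum, Prod.snd_sum, Prod.snd_sum]
      show _ = (0 : k)
      have h8 : lam (BR β w.2.1) = 0 := hl2 _ (dec_s (Rj j) X β hβX w.2.1)
      have h9 : BR β w.2.1 = ∑ p : Fin m × Fin m, d p • (B3 (bX p.1 : E →ₗ[k] k)
          (B2 (bX p.2 : E →ₗ[k] k) w.2.1) + (-1 : k) • B3 (bX p.2 : E →ₗ[k] k)
          (B2 (bX p.1 : E →ₗ[k] k) w.2.1)) := by
        ext a e e'
        rw [BR_apply, hβ]
        simp only [LinearMap.sum_apply, LinearMap.smul_apply, LinearMap.add_apply, smul_eq_mul]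
        rw [Finset.sum_mul]
        refine Finset.sum_congr rfl fun p _ => ?_
        rw [B3_apply, B3_apply, B2_apply, B2_apply, B2_apply, B2_apply]
        ring
      rw [h9, map_sum] at h8
      simp only
      rw [← h8]
      refine Finset.sum_congr rfl fun p _ => ?_
      rw [map_smul, map_add, map_smul]
      simp only [smul_eq_mul]
      ring
  -- the element Z
  set Z : FreeLieAlgebra k (Fin m) := ∑ s, ∑ t, ∑ v, c s t v •
    ⁅⁅FreeLieAlgebra.of k s, FreeLieAlgebra.of k t⁆, FreeLieAlgebra.of k v⁆ with hZ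
  have hZ0 : freeTo k L (fun i => (b i : L)) Z = 0 := by
    have h3 : Br3L j κ = 0 := hBr
    rw [hexp] at h3
    rw [← h3, hZ]
    simp only [map_sum, map_smul, LieHom.map_lie, hfr]
    refine Finset.sum_congr rfl fun s _ => Finset.sum_congr rfl fun t _ =>
      Finset.sum_congr rfl fun v _ => ?_
    congr 1
    change _ = Br3 j _
    rw [Br3_B3, hbX, hbX, hbX]
  have hρZ : ρ Z = 0 := by
    rw [← LieHom.mem_ker]
    exact hgen (hb (LieHom.mem_ker.2 hZ0))
  have hval : (ρ Z (1, 0, 0, 0)).2.2.2 = 0 := by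
    rw [hρZ]; rfl
  have hval2 : (ρ Z (1, 0, 0, 0)).2.2.2 = ∑ s, ∑ t, ∑ v, c s t v *
      (lam (B3 (bX s) (B2 (bX t) (bX v))) - lam (B3 (bX t) (B2 (bX s) (bX v))) -
        lam (B3 (bX v) (B2 (bX s) (bX t))) + lam (B3 (bX v) (B2 (bX t) (bX s)))) := by
    rw [hZ]
    simp only [map_sum, map_smul, LieHom.map_lie, hρ, LinearMap.sum_apply, LinearMap.smul_apply,
      lie_three, Prod.snd_sum, Prod.smul_snd, smul_eq_mul, one_mul]
  rw [hval2] at hval
  have k1 : lam κ = ∑ s, ∑ t, ∑ v, c s t v * lam (B3 (bX s) (B2 (bX t) (bX v))) := by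
    conv_lhs => rw [hexp]
    simp only [map_sum, map_smul, smul_eq_mul]
  have k2 : -lam κ = ∑ s, ∑ t, ∑ v, c s t v * lam (B3 (bX t) (B2 (bX s) (bX v))) := by
    rw [Finset.sum_comm, k1, ← Finset.sum_neg_distrib]
    refine Finset.sum_congr rfl fun s _ => ?_
    rw [← Finset.sum_neg_distrib]
    refine Finset.sum_congr rfl fun t _ => ?_
    rw [← Finset.sum_neg_distrib]
    refine Finset.sum_congr rfl fun v _ => ?_
    rw [hanti s t v]; ring
  have k3 : lam κ' = ∑ s, ∑ t, ∑ v, c s t v * lam (B3 (bX v) (B2 (bX s) (bX t))) := by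
    rw [hκ']
    simp only [map_sum, map_smul, smul_eq_mul]
  have k4 : -lam κ' = ∑ s, ∑ t, ∑ v, c s t v * lam (B3 (bX v) (B2 (bX t) (bX s))) := by
    rw [Finset.sum_comm, k3, ← Finset.sum_neg_distrib]
    refine Finset.sum_congr rfl fun s _ => ?_
    rw [← Finset.sum_neg_distrib]
    refine Finset.sum_congr rfl fun t _ => ?_
    rw [← Finset.sum_neg_distrib]
    refine Finset.sum_congr rfl fun v _ => ?_
    rw [hanti s t v]; ring
  have k5 : 2 * lam (κ + (-1 : k) • κ') = 0 := by
    rw [map_add, map_smul, ← hval, smul_eq_mul]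
    have : 2 * (lam κ + -1 * lam κ') = lam κ - (-lam κ) - lam κ' + (-lam κ') := by ring
    rw [this, k2, k4]
    rw [k1, k3]
    simp only [← Finset.sum_sub_distrib, ← Finset.sum_add_distrib]
    refine Finset.sum_congr rfl fun s _ => Finset.sum_congr rfl fun t _ =>
      Finset.sum_congr rfl fun v _ => ?_
    ring
  exact (mul_eq_zero.1 k5).resolve_left h2

end

end Pool.Agent.W358.BK
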